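import Pool.Agent.ZPK.StmtsR2

/-!
# ZPK, row TEI: the decomposition of an unramified unit
-/

set_option autoImplicit false

namespace Pool.Agent.ZPK.H30

open Polynomial Pool.Agent.ZPT Pool.Agent.ZP3

theorem tei (_urr : ZP3.URRStmt) (thb : ZP3.THBStmt) (lgb : LgbStmt) (lrx : LrxStmt) :
    TeiStmt := by
  intro p hp h5 K _ _ _ _ _ hE Log hL x hx
  obtain ⟨-, ht0, ht1, ht3, -⟩ := thb p hp h5
  obtain ⟨-, -, hRo, -, h4, hUu, -⟩ := lgb p hp h5 K hE Log hL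
  have hp1 : (1 : ℝ) < p := by exact_mod_cast hp.one_lt
  have hpi0 : 0 < (p : ℝ)⁻¹ := inv_pos.2 (by linarith)
  have hpi1 : (p : ℝ)⁻¹ < 1 := inv_lt_one_of_one_lt₀ hp1
  have hx1 : ‖x‖ = 1 := hx.2
  have hx0 : x ≠ 0 := fun h => by rw [h, norm_zero] at hx1; exact zero_ne_one hx1
  have hth1 : (p : ℝ)⁻¹ < th p := by
    refine lt_of_lt_of_le ht3 ?_
    calc th p ^ 3 ≤ th p ^ 1 := pow_le_pow_of_le_one ht0.le ht1.le (by norm_num)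
      _ = th p := pow_one _
  have hth2 : (p : ℝ)⁻¹ ≤ th p ^ 2 :=
    ht3.le.trans (pow_le_pow_of_le_one ht0.le ht1.le (by norm_num))
  have hLx : ‖Log x‖ ≤ (p : ℝ)⁻¹ := hUu x hx
  have hM : ∃ M : ℕ, 1 ≤ M ∧ ‖x ^ M - 1‖ < 1 := by
    obtain ⟨F, hF, h⟩ := hx.1.2
    have h1 : 1 < p ^ F := Nat.one_lt_pow (by omega) hp.one_lt
    refine ⟨p ^ F - 1, by omega, ?_⟩
    have e : x ^ (p ^ F) - x = x * (x ^ (p ^ F - 1) - 1) := by
      have : p ^ F = (p ^ F - 1) + 1 := by omega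
      rw [mul_sub, mul_one, ← pow_succ', ← this]
    rw [e, norm_mul, hx1, one_mul] at h
    exact lt_of_le_of_lt h hpi1
  obtain ⟨ζ, d, hζ, hxe, hd⟩ := lrx p hp h5 K hE Log hL x hM (lt_of_le_of_lt hLx hth1)
  have hd1 : ‖d‖ ≤ (p : ℝ)⁻¹ := hd ▸ hLx
  have hζ0 : ζ ≠ 0 := fun h => hx0 (by rw [hxe, h, zero_mul])
  have hd0 : 1 + d ≠ 0 := fun h => hx0 (by rw [hxe, h, mul_zero])
  refine ⟨ζ, d, hζ, hxe, hd1, ?_⟩
  have e : Log x = Log (1 + d) := by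
    rw [hxe, hL.mul ζ (1 + d) hζ0 hd0, hRo ζ hζ, zero_add]
  rw [e]
  exact (h4 d (hd1.trans hth2)).trans (pow_le_pow_left₀ (norm_nonneg d) hd1 2)

end Pool.Agent.ZPK.H30
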